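import Mathlib
import Pool.Agent.Q282.MM.Stm

/-! Lemma job COMB of project MM of helper282: the moments of a linear combination of independent
normal variables. -/

set_option autoImplicit false

namespace Q177.MM

open Finset Q282MM

theorem gm_even (j : ℕ) : gm (2 * j) * (2 ^ j * j.factorial) = (2 * j).factorial := by
  unfold gm
  rw [if_pos (even_two_mul j)]
  rcases j with _ | j
  · simp
  · have h1 : 2 * (j + 1) - 1 = 2 * j + 1 := by omega
    rw [h1]
    have h2 : (2 * (j + 1)).doubleFactorial = 2 ^ (j + 1) * (j + 1).factorial :=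
      Nat.doubleFactorial_two_mul (j + 1)
    rw [← h2]
    have h3 := Nat.factorial_eq_mul_doubleFactorial (2 * j + 1)
    rw [show 2 * (j + 1) = 2 * j + 1 + 1 by ring, h3]
    ring

theorem key (s n : ℕ) (l : Fin s → ℕ) (hl : ∑ i, l i = n) :
    Nat.multinomial univ (fun i => 2 * l i) * ∏ i, gm (2 * l i) = gm (2 * n) * Nat.multinomial univ l := by
  have h1 := Nat.multinomial_spec (univ : Finset (Fin s)) (fun i => 2 * l i)
  have h2 := Nat.multinomial_spec (univ : Finset (Fin s)) l
  rw [hl] at h2
  have h3 : ∑ i, 2 * l i = 2 * n := by rw [← Finset.mul_sum, hl]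
  rw [h3] at h1
  have h4 : (∏ i, gm (2 * l i)) * (2 ^ n * ∏ i, (l i).factorial) = ∏ i, (2 * l i).factorial := by
    rw [← hl, ← Finset.prod_pow_eq_pow_sum, ← Finset.prod_mul_distrib, ← Finset.prod_mul_distrib]
    exact Finset.prod_congr rfl (fun i _ => gm_even (l i))
  have h5 := gm_even n
  have hpos : 0 < 2 ^ n * ∏ i, (l i).factorial :=
    Nat.mul_pos (by positivity) (Finset.prod_pos (fun i _ => Nat.factorial_pos _))
  apply Nat.eq_of_mul_eq_mul_right hpos
  calc Nat.multinomial univ (fun i => 2 * l i) * (∏ i, gm (2 * l i)) * (2 ^ n * ∏ i, (l i).factorial)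
      = Nat.multinomial univ (fun i => 2 * l i) * ((∏ i, gm (2 * l i)) * (2 ^ n * ∏ i, (l i).factorial)) := by
        ring
    _ = (∏ i, (2 * l i).factorial) * Nat.multinomial univ (fun i => 2 * l i) := by rw [h4]; ring
    _ = (2 * n).factorial := h1
    _ = gm (2 * n) * (2 ^ n * ((∏ i, (l i).factorial) * Nat.multinomial univ l)) := by rw [h2, h5]
    _ = _ := by ring

theorem comb : S_Comb := by
  intro s θ k
  rcases Nat.even_or_odd k with hk | hk
  · obtain ⟨n, rfl⟩ : ∃ n, k = 2 * n := by
      obtain ⟨n, hn⟩ := hk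
      exact ⟨n, by omega⟩
    have hR : (√(∑ i, θ i ^ 2)) ^ (2 * n) = (∑ i, θ i ^ 2) ^ n := by
      rw [pow_mul, Real.sq_sqrt (Finset.sum_nonneg (fun i _ => sq_nonneg _))]
    rw [hR, Finset.sum_pow_eq_sum_piAntidiag, Finset.sum_mul]
    symm
    refine Finset.sum_of_injOn (fun (l : Fin s → ℕ) i => 2 * l i) ?_ ?_ ?_ ?_
    · intro a _ b _ hab
      funext i
      have := congrFun hab i
      simp only at this
      omega
    · intro l hl
      rw [Finset.mem_coe, Finset.mem_piAntidiag] at hl ⊢
      refine ⟨?_, fun i _ => Finset.mem_univ i⟩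
      rw [← Finset.mul_sum, hl.1]
    · intro κ hκ hno
      have hex : ∃ i, ¬ Even (κ i) := by
        by_contra hcon
        push Not at hcon
        apply hno
        choose l hl using hcon
        refine ⟨l, ?_, ?_⟩
        · rw [Finset.mem_coe, Finset.mem_piAntidiag]
          refine ⟨?_, fun i _ => Finset.mem_univ i⟩
          have h1 := (Finset.mem_piAntidiag.mp hκ).1
          have h2 : ∑ i, κ i = ∑ i, 2 * l i := Finset.sum_congr rfl (fun i _ => by rw [hl i]; ring)
          have h3 : 2 * ∑ i, l i = 2 * n := by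
            rw [Finset.mul_sum, ← h2]; exact h1
          exact (by omega : ∑ i, l i = n)
        · funext i
          simp only
          rw [hl i]; ring
      obtain ⟨i, hi⟩ := hex
      have h0 : ∏ i, (gm (κ i) : ℝ) = 0 := by
        apply Finset.prod_eq_zero (Finset.mem_univ i)
        unfold gm
        rw [if_neg hi]; simp
      rw [h0, mul_zero]
    · intro l hl
      have hln := (Finset.mem_piAntidiag.mp hl).1
      have h1 := key s n l hln
      have h2 : ((Nat.multinomial univ (fun i => 2 * l i) : ℕ) : ℝ) * ∏ i, (gm (2 * l i) : ℝ)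
          = (gm (2 * n) : ℝ) * (Nat.multinomial univ l : ℝ) := by exact_mod_cast h1
      have h3 : ∏ i, θ i ^ (2 * l i) = ∏ i, (θ i ^ 2) ^ l i :=
        Finset.prod_congr rfl (fun i _ => by rw [pow_mul])
      rw [h3]
      calc (Nat.multinomial univ l : ℝ) * (∏ i, (θ i ^ 2) ^ l i) * (gm (2 * n) : ℝ)
          = ((gm (2 * n) : ℝ) * (Nat.multinomial univ l : ℝ)) * (∏ i, (θ i ^ 2) ^ l i) := by ring
        _ = _ := by rw [← h2]; ring
  · have hk' : ¬ Even k := Nat.not_even_iff_odd.mpr hk
    have h1 : gm k = 0 := by unfold gm; rw [if_neg hk']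
    rw [h1, Nat.cast_zero, mul_zero]
    refine Finset.sum_eq_zero (fun κ hκ => ?_)
    have hex : ∃ i, ¬ Even (κ i) := by
      by_contra hcon
      push Not at hcon
      apply hk'
      have h2 := (Finset.mem_piAntidiag.mp hκ).1
      rw [← h2]
      exact Finset.even_sum _ (fun i _ => hcon i)
    obtain ⟨i, hi⟩ := hex
    have h0 : ∏ i, (gm (κ i) : ℝ) = 0 := by
      apply Finset.prod_eq_zero (Finset.mem_univ i)
      unfold gm
      rw [if_neg hi]; simp
    rw [h0, mul_zero]

end Q177.MM
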