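import Mathlib
import Pool.Agent.Q282.MM.Stm

/-! Lemma job FIN of project MM of helper282: the final estimate. -/

set_option autoImplicit false

namespace Q177.MM

open MeasureTheory ProbabilityTheory Finset Q282MM

theorem gm_even' (j : ℕ) : gm (2 * j) * (2 ^ j * j.factorial) = (2 * j).factorial := by
  unfold gm
  rw [if_pos (even_two_mul j)]
  rcases j with _ | j
  · simp
  · have h1 : 2 * (j + 1) - 1 = 2 * j + 1 := by omega
    rw [h1]
    have h2 : (2 * (j + 1)).doubleFactorial = 2 ^ (j + 1) * (j + 1).factorial :=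
      Nat.doubleFactorial_two_mul (j + 1)
    rw [← h2]
    have h3 := Nat.factorial_eq_mul_doubleFactorial (2 * j + 1)
    rw [show 2 * (j + 1) = 2 * j + 1 + 1 by ring, h3]
    ring

theorem pow_third_le_factorial (n : ℕ) : ((n : ℝ) / 3) ^ n ≤ (n.factorial : ℝ) := by
  have h1 := Real.pow_div_factorial_le_exp (n : ℝ) (Nat.cast_nonneg n) n
  have h2 : Real.exp (n : ℝ) ≤ 3 ^ n := by
    have h3 : Real.exp 1 ≤ 3 := by
      have := Real.exp_one_lt_d9
      linarith
    calc Real.exp (n : ℝ) = Real.exp 1 ^ n := by rw [← Real.exp_nat_mul, mul_one]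
      _ ≤ 3 ^ n := pow_le_pow_left₀ (Real.exp_pos 1).le h3 n
  have hf : (0 : ℝ) < (n.factorial : ℝ) := by exact_mod_cast n.factorial_pos
  rw [div_pow, div_le_iff₀ (by positivity)]
  rw [div_le_iff₀ hf] at h1
  calc (n : ℝ) ^ n ≤ Real.exp n * (n.factorial : ℝ) := h1
    _ ≤ 3 ^ n * (n.factorial : ℝ) := mul_le_mul_of_nonneg_right h2 hf.le
    _ = _ := by ring

theorem fin (h1 : S_CF) (h2 : S_Ess) : S_Fin := by
  intro n hn
  have hn0 : (0 : ℝ) < n := by exact_mod_cast hn
  have hr0 : 0 < √(n : ℝ) := Real.sqrt_pos.mpr hn0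
  rcases Nat.lt_or_ge 16 n with hbig | hsmall
  · -- `n ≥ 17`
    set R : ℝ := √(2 * n / 3) with hR
    have hRpos : 0 < R := Real.sqrt_pos.mpr (by positivity)
    have hR2 : R ^ (2 * n) = (2 * (n : ℝ) / 3) ^ n := by
      rw [pow_mul, hR, Real.sq_sqrt (by positivity)]
    set F : ℝ := ((2 * n).factorial : ℝ) with hF
    have hFpos : 0 < F := by rw [hF]; exact_mod_cast (2 * n).factorial_pos
    have hfn : (0 : ℝ) < (n.factorial : ℝ) := by exact_mod_cast n.factorial_pos
    have hgm : (gm (2 * n) : ℝ) * (2 ^ n * (n.factorial : ℝ)) = F := by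
      rw [hF]; exact_mod_cast gm_even' n
    set K : ℝ := (Real.exp R - 1) + R ^ (2 * n) / (2 * n * F) with hK
    have hKnn : 0 ≤ K := by
      have : 1 ≤ Real.exp R := Real.one_le_exp hRpos.le
      have : 0 ≤ R ^ (2 * n) / (2 * n * F) := by positivity
      rw [hK]; linarith
    refine ⟨2 / Real.pi * K, by positivity, ?_⟩
    intro μ _ η hη hint hmom x
    set b : ℝ → ℝ := fun t => η * Real.exp t + t ^ (2 * n - 1) * (((gm (2 * n) : ℝ) + η) / F) +
      t ^ (2 * n - 1) * (1 / (2 ^ n * (n.factorial : ℝ))) with hb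
    have hbc : Continuous b := by rw [hb]; fun_prop
    have hbound : ∀ t, 0 < t → t ≤ R →
        ‖charFun μ t - Complex.exp (-((t : ℂ) ^ 2 / 2))‖ ≤ t * b t := by
      intro t ht _
      refine (h1 μ n η hn hη hint hmom t ht.le).trans ?_
      have hexp : Real.exp t - 1 ≤ t * Real.exp t := by
        have h3 := Real.add_one_le_exp (-t)
        have h4 : Real.exp (-t) * Real.exp t = 1 := by rw [← Real.exp_add]; simp
        nlinarith [Real.exp_pos t]
      have hpow : t * t ^ (2 * n - 1) = t ^ (2 * n) := by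
        rw [← pow_succ']; congr 1; omega
      have h5 : t * b t = η * (t * Real.exp t) + t ^ (2 * n) * (((gm (2 * n) : ℝ) + η) / F)
          + t ^ (2 * n) * (1 / (2 ^ n * (n.factorial : ℝ))) := by
        rw [hb]; simp only; rw [← hpow]; ring
      rw [h5]
      have h6 : (t ^ 2 / 2) ^ n / (n.factorial : ℝ) = t ^ (2 * n) * (1 / (2 ^ n * (n.factorial : ℝ))) := by
        rw [div_pow, ← pow_mul]; field_simp
      rw [h6]
      have h7 : t ^ (2 * n) * ((gm (2 * n) : ℝ) + η) / F = t ^ (2 * n) * (((gm (2 * n) : ℝ) + η) / F) := by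
        ring
      rw [h7]
      have h8 := mul_le_mul_of_nonneg_left hexp hη
      linarith
    have hmain := h2 μ R b hRpos hbc hbound x
    have hint2 : ∫ t in (0 : ℝ)..R, b t = η * K + (1 / n) * (((n : ℝ) / 3) ^ n / (n.factorial : ℝ)) := by
      have e1 : ∫ t in (0 : ℝ)..R, b t = η * (∫ t in (0 : ℝ)..R, Real.exp t)
          + (∫ t in (0 : ℝ)..R, t ^ (2 * n - 1)) * (((gm (2 * n) : ℝ) + η) / F)
          + (∫ t in (0 : ℝ)..R, t ^ (2 * n - 1)) * (1 / (2 ^ n * (n.factorial : ℝ))) := by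
        rw [hb]
        rw [intervalIntegral.integral_add, intervalIntegral.integral_add,
          intervalIntegral.integral_const_mul, intervalIntegral.integral_mul_const,
          intervalIntegral.integral_mul_const]
        all_goals
          apply Continuous.intervalIntegrable
          fun_prop
      rw [e1, integral_exp, integral_pow]
      have e2 : 2 * n - 1 + 1 = 2 * n := by omega
      have e3 : ((2 * n - 1 : ℕ) : ℝ) + 1 = 2 * n := by
        have : ((2 * n - 1 + 1 : ℕ) : ℝ) = ((2 * n : ℕ) : ℝ) := by rw [e2]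
        push_cast at this
        exact_mod_cast this
      rw [e2, e3, Real.exp_zero, zero_pow (by omega), sub_zero]
      have e4 : (gm (2 * n) : ℝ) / F = 1 / (2 ^ n * (n.factorial : ℝ)) := by
        rw [← hgm]
        have : (gm (2 * n) : ℝ) ≠ 0 := by
          intro h0
          rw [h0, zero_mul] at hgm
          exact hFpos.ne hgm
        field_simp
      rw [add_div, e4, hK, hR2]
      have e5 : (2 * (n : ℝ) / 3) ^ n = 2 ^ n * ((n : ℝ) / 3) ^ n := by
        rw [← mul_pow]; congr 1; ring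
      rw [e5]
      have : (n : ℝ) ≠ 0 := hn0.ne'
      field_simp
      ring
    rw [hint2] at hmain
    have hle1 : (1 / (n : ℝ)) * (((n : ℝ) / 3) ^ n / (n.factorial : ℝ)) ≤ 1 / n := by
      have := pow_third_le_factorial n
      have h9 : ((n : ℝ) / 3) ^ n / (n.factorial : ℝ) ≤ 1 := by
        rw [div_le_one hfn]; exact this
      have h10 : (0 : ℝ) ≤ 1 / n := by positivity
      nlinarith
    have hpi : (3.14 : ℝ) < Real.pi := Real.pi_gt_d2
    have hpi0 := Real.pi_pos
    have hnr : √(n : ℝ) * √(n : ℝ) = n := Real.mul_self_sqrt hn0.le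
    have hn17 : (17 : ℝ) ≤ n := by exact_mod_cast hbig
    have hr : 4.1 ≤ √(n : ℝ) := by
      apply Real.le_sqrt_of_sq_le
      norm_num
      linarith
    have hsq : 2.04 * √(n : ℝ) ≤ √(2 * Real.pi) * R := by
      rw [hR, ← Real.sqrt_mul (by positivity)]
      apply Real.le_sqrt_of_sq_le
      rw [mul_pow, Real.sq_sqrt hn0.le]
      nlinarith
    have hA : 24 / (Real.pi * √(2 * Real.pi) * R) ≤ 3.75 / √(n : ℝ) := by
      rw [div_le_div_iff₀ (by positivity) hr0]
      have : 24 * √(n : ℝ) ≤ 3.75 * (3.14 * (2.04 * √(n : ℝ))) := by nlinarith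
      calc 24 * √(n : ℝ) ≤ 3.75 * (3.14 * (2.04 * √(n : ℝ))) := this
        _ ≤ 3.75 * (Real.pi * (√(2 * Real.pi) * R)) := by
            apply mul_le_mul_of_nonneg_left _ (by norm_num)
            exact mul_le_mul hpi.le hsq (by positivity) hpi0.le
        _ = _ := by ring
    have hB : 2 / Real.pi * (1 / n) ≤ 0.16 / √(n : ℝ) := by
      have h11 : 2 / Real.pi ≤ 0.64 := by
        rw [div_le_iff₀ hpi0]; nlinarith
      have h12 : (1 : ℝ) / n ≤ (1 / 4.1) * (1 / √(n : ℝ)) := by
        have h14 : (1 : ℝ) / (√(n : ℝ) * √(n : ℝ)) ≤ 1 / (4.1 * √(n : ℝ)) :=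
          one_div_le_one_div_of_le (by positivity) (mul_le_mul_of_nonneg_right hr hr0.le)
        rw [hnr] at h14
        rw [one_div_mul_one_div]
        exact h14
      have h13 : (0 : ℝ) ≤ 1 / n := by positivity
      calc 2 / Real.pi * (1 / n) ≤ 0.64 * ((1 / 4.1) * (1 / √(n : ℝ))) :=
            mul_le_mul h11 h12 h13 (by norm_num)
        _ ≤ 0.16 * (1 / √(n : ℝ)) := by
            have : 0 < 1 / √(n : ℝ) := by positivity
            nlinarith
        _ = _ := by ring
    have hpi2 : 0 ≤ 2 / Real.pi := by positivity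
    have hC : 2 / Real.pi * ((1 / (n : ℝ)) * (((n : ℝ) / 3) ^ n / (n.factorial : ℝ))) ≤ 0.16 / √(n : ℝ) :=
      (mul_le_mul_of_nonneg_left hle1 hpi2).trans hB
    have hsum : 3.75 / √(n : ℝ) + 0.16 / √(n : ℝ) ≤ 4 / √(n : ℝ) := by
      rw [← add_div]
      exact div_le_div_of_nonneg_right (by norm_num) hr0.le
    calc |μ.real (Set.Iic x) - Phi x|
        ≤ 2 / Real.pi * (η * K + (1 / (n : ℝ)) * (((n : ℝ) / 3) ^ n / (n.factorial : ℝ)))
          + 24 / (Real.pi * √(2 * Real.pi) * R) := hmain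
      _ = 2 / Real.pi * ((1 / (n : ℝ)) * (((n : ℝ) / 3) ^ n / (n.factorial : ℝ)))
          + 24 / (Real.pi * √(2 * Real.pi) * R) + 2 / Real.pi * K * η := by ring
      _ ≤ 4 / √(n : ℝ) + 2 / Real.pi * K * η := by linarith
  · refine ⟨0, le_rfl, ?_⟩
    intro μ _ η _ _ _ x
    rw [zero_mul, add_zero]
    have hr4 : √(n : ℝ) ≤ 4 := by
      rw [Real.sqrt_le_left (by norm_num)]
      have : (n : ℝ) ≤ 16 := by exact_mod_cast hsmall
      linarith
    have h4 : (1 : ℝ) ≤ 4 / √(n : ℝ) := by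
      rw [le_div_iff₀ hr0]; linarith
    refine le_trans ?_ h4
    have a1 : 0 ≤ μ.real (Set.Iic x) := measureReal_nonneg
    have a2 : μ.real (Set.Iic x) ≤ 1 := measureReal_le_one
    have b1 : 0 ≤ Phi x := measureReal_nonneg
    have b2 : Phi x ≤ 1 := measureReal_le_one
    rw [abs_le]
    constructor <;> linarith

end Q177.MM
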