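import Mathlib
import Pool.Agent.Q282.MM.Stm

/-! Lemma jobs REM and CF of project MM of helper282: the Taylor remainder of the exponential function
in the closed left half plane, and the characteristic function from the first `2n` moments. -/

set_option autoImplicit false

namespace Q177.MM

open MeasureTheory ProbabilityTheory Finset Q282MM

noncomputable def tay (m : ℕ) (z : ℂ) : ℂ := ∑ k ∈ range m, z ^ k / (k.factorial : ℂ)

theorem hasDerivAt_tay (m : ℕ) (w : ℂ) : HasDerivAt (tay (m + 1)) (tay m w) w := by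
  induction m with
  | zero =>
    have : tay 1 = fun _ => (1 : ℂ) := by
      funext z; simp [tay]
    rw [show (0 : ℕ) + 1 = 1 from rfl, this]
    simpa [tay] using hasDerivAt_const w (1 : ℂ)
  | succ m ih =>
    have h1 : tay (m + 1 + 1) = fun z => tay (m + 1) z + z ^ (m + 1) / ((m + 1).factorial : ℂ) := by
      funext z; simp only [tay]; rw [Finset.sum_range_succ]
    have h2 : tay (m + 1) w = tay m w + w ^ m / (m.factorial : ℂ) := by
      simp only [tay]; rw [Finset.sum_range_succ]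
    rw [h1, h2]
    refine ih.add ?_
    have h3 := (hasDerivAt_pow (m + 1) w).div_const ((m + 1).factorial : ℂ)
    refine h3.congr_deriv ?_
    have hm : (m.factorial : ℂ) ≠ 0 := by exact_mod_cast m.factorial_ne_zero
    have hm1 : ((m : ℂ) + 1) ≠ 0 := by exact_mod_cast (Nat.succ_ne_zero m)
    rw [Nat.factorial_succ]
    push_cast
    field_simp
    try simp

theorem rem_aux (m : ℕ) : ∀ z : ℂ, z.re ≤ 0 →
    ‖Complex.exp z - tay m z‖ ≤ ‖z‖ ^ m / (m.factorial : ℝ) := by
  induction m with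
  | zero =>
    intro z hz
    simp only [tay, Finset.range_zero, Finset.sum_empty, sub_zero, pow_zero, Nat.factorial_zero,
      Nat.cast_one, div_one]
    rw [Complex.norm_exp]
    exact Real.exp_le_one_iff.mpr hz
  | succ m ih =>
    intro z hz
    have hd : ∀ s : ℝ, HasDerivAt (fun s : ℝ => Complex.exp ((s : ℂ) * z) - tay (m + 1) ((s : ℂ) * z))
        (z * (Complex.exp ((s : ℂ) * z) - tay m ((s : ℂ) * z))) s := by
      intro s
      have h1 : HasDerivAt (fun s : ℝ => (s : ℂ) * z) z s := by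
        have := (Complex.ofRealCLM.hasDerivAt (x := s)).mul_const z
        simpa using this
      have h2 : HasDerivAt (fun w : ℂ => Complex.exp w - tay (m + 1) w)
          (Complex.exp ((s : ℂ) * z) - tay m ((s : ℂ) * z)) ((s : ℂ) * z) :=
        (Complex.hasDerivAt_exp _).sub (hasDerivAt_tay m _)
      have h3 := h2.comp s h1
      rw [mul_comm z]
      exact h3
    have hcont : Continuous (fun s : ℝ => z * (Complex.exp ((s : ℂ) * z) - tay m ((s : ℂ) * z))) := by
      unfold tay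
      fun_prop
    have h0 := intervalIntegral.integral_eq_sub_of_hasDerivAt (a := 0) (b := 1)
      (fun s _ => hd s) (hcont.intervalIntegrable 0 1)
    have hf0 : Complex.exp (((0 : ℝ) : ℂ) * z) - tay (m + 1) (((0 : ℝ) : ℂ) * z) = 0 := by
      simp only [tay, Complex.ofReal_zero, zero_mul, Complex.exp_zero]
      rw [Finset.sum_range_succ']
      simp
    have hf1 : Complex.exp (((1 : ℝ) : ℂ) * z) - tay (m + 1) (((1 : ℝ) : ℂ) * z)
        = Complex.exp z - tay (m + 1) z := by simp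
    rw [hf0, hf1, sub_zero] at h0
    rw [← h0]
    have hb : ∀ s ∈ Set.Ioc (0 : ℝ) 1, ‖z * (Complex.exp ((s : ℂ) * z) - tay m ((s : ℂ) * z))‖
        ≤ ‖z‖ ^ (m + 1) / (m.factorial : ℝ) * s ^ m := by
      intro s hs
      rw [norm_mul]
      have h1 : ((s : ℂ) * z).re ≤ 0 := by
        simp only [Complex.mul_re, Complex.ofReal_re, Complex.ofReal_im, zero_mul, sub_zero]
        exact mul_nonpos_of_nonneg_of_nonpos hs.1.le hz
      have h2 := ih _ h1
      have h3 : ‖(s : ℂ) * z‖ = s * ‖z‖ := by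
        rw [norm_mul, Complex.norm_real, Real.norm_of_nonneg hs.1.le]
      rw [h3] at h2
      calc ‖z‖ * ‖Complex.exp ((s : ℂ) * z) - tay m ((s : ℂ) * z)‖
          ≤ ‖z‖ * ((s * ‖z‖) ^ m / (m.factorial : ℝ)) :=
            mul_le_mul_of_nonneg_left h2 (norm_nonneg _)
        _ = ‖z‖ ^ (m + 1) / (m.factorial : ℝ) * s ^ m := by rw [mul_pow, pow_succ]; ring
    have h4 : ‖∫ s in (0 : ℝ)..1, z * (Complex.exp ((s : ℂ) * z) - tay m ((s : ℂ) * z))‖ ≤
        ∫ s in (0 : ℝ)..1, ‖z‖ ^ (m + 1) / (m.factorial : ℝ) * s ^ m := by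
      refine intervalIntegral.norm_integral_le_of_norm_le zero_le_one ?_ ?_
      · exact Filter.Eventually.of_forall hb
      · exact (by fun_prop : Continuous (fun s : ℝ => ‖z‖ ^ (m + 1) / (m.factorial : ℝ) * s ^ m)).intervalIntegrable _ _
    refine h4.trans (le_of_eq ?_)
    rw [intervalIntegral.integral_const_mul, integral_pow]
    have hm : (m.factorial : ℝ) ≠ 0 := by exact_mod_cast m.factorial_ne_zero
    have hm1 : ((m : ℝ) + 1) ≠ 0 := by positivity
    rw [Nat.factorial_succ]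
    push_cast
    field_simp
    simp

theorem rem : S_Rem := fun z m hz => rem_aux m z hz

theorem even_gm (j : ℕ) : (gm (2 * j) : ℂ) / ((2 * j).factorial : ℂ) = 1 / (2 ^ j * (j.factorial : ℂ)) := by
  have h0 : gm (2 * j) * (2 ^ j * j.factorial) = (2 * j).factorial := by
    unfold gm
    rw [if_pos (even_two_mul j)]
    rcases j with _ | j
    · simp
    · have h1 : 2 * (j + 1) - 1 = 2 * j + 1 := by omega
      rw [h1]
      have h2 : (2 * (j + 1)).doubleFactorial = 2 ^ (j + 1) * (j + 1).factorial :=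
        Nat.doubleFactorial_two_mul (j + 1)
      rw [← h2]
      have h3 := Nat.factorial_eq_mul_doubleFactorial (2 * j + 1)
      rw [show 2 * (j + 1) = 2 * j + 1 + 1 by ring, h3]
      ring
  have h1 : ((2 * j).factorial : ℂ) ≠ 0 := by exact_mod_cast (2 * j).factorial_ne_zero
  have h2 : (2 ^ j * (j.factorial : ℂ)) ≠ 0 := by
    have : (j.factorial : ℂ) ≠ 0 := by exact_mod_cast j.factorial_ne_zero
    exact mul_ne_zero (pow_ne_zero _ two_ne_zero) this
  rw [div_eq_div_iff h1 h2, one_mul]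
  exact_mod_cast h0

theorem odd_gm (k : ℕ) (hk : ¬ Even k) : gm k = 0 := by
  unfold gm; rw [if_neg hk]

theorem sum_even (n : ℕ) (f : ℕ → ℂ) (hf : ∀ k, ¬ Even k → f k = 0) :
    ∑ k ∈ range (2 * n), f k = ∑ j ∈ range n, f (2 * j) := by
  induction n with
  | zero => simp
  | succ n ih =>
    rw [show 2 * (n + 1) = 2 * n + 1 + 1 by ring, Finset.sum_range_succ, Finset.sum_range_succ, ih,
      Finset.sum_range_succ, hf (2 * n + 1) (by simp), add_zero]

theorem cf : S_CF := by
  intro μ _ n η hn hη hint hmom t ht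
  have hcf : charFun μ t = ∫ x : ℝ, Complex.exp ((t * x : ℝ) * Complex.I) ∂μ := by
    rw [charFun_apply_real]
    push_cast
    rfl
  set S : ℝ → ℂ := fun x => tay (2 * n) ((t * x : ℝ) * Complex.I) with hS
  have hterm : ∀ k x, ((((t * x : ℝ) : ℂ)) * Complex.I) ^ k / (k.factorial : ℂ)
      = (((t : ℂ) * Complex.I) ^ k / (k.factorial : ℂ)) * ((x ^ k : ℝ) : ℂ) := by
    intro k x
    push_cast
    rw [mul_pow, mul_pow, mul_pow]
    ring
  have hSint : ∀ k ∈ range (2 * n), Integrable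
      (fun x : ℝ => ((((t * x : ℝ) : ℂ)) * Complex.I) ^ k / (k.factorial : ℂ)) μ := by
    intro k hk
    simp_rw [hterm]
    exact ((hint k (by have := Finset.mem_range.mp hk; omega)).ofReal).const_mul _
  have hSI : Integrable S μ := by
    rw [hS]
    exact integrable_finsetSum _ hSint
  have hexpI : Integrable (fun x : ℝ => Complex.exp ((t * x : ℝ) * Complex.I)) μ := by
    refine Integrable.of_bound (C := 1) ?_ ?_
    · exact (by fun_prop : Continuous (fun x : ℝ => Complex.exp ((t * x : ℝ) * Complex.I))).aestronglyMeasurable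
    · refine Filter.Eventually.of_forall (fun x => ?_)
      rw [Complex.norm_exp_ofReal_mul_I]
  have hsub : charFun μ t = (∫ x : ℝ, (Complex.exp ((t * x : ℝ) * Complex.I) - S x) ∂μ) + ∫ x, S x ∂μ := by
    rw [integral_sub hexpI hSI, sub_add_cancel, hcf]
  have hI : ∫ x, S x ∂μ = ∑ k ∈ range (2 * n), (((t : ℂ) * Complex.I) ^ k / (k.factorial : ℂ))
      * ((∫ x, x ^ k ∂μ : ℝ) : ℂ) := by
    rw [hS]
    simp only [tay]
    rw [integral_finsetSum _ hSint]
    refine Finset.sum_congr rfl (fun k _ => ?_)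
    simp_rw [hterm]
    rw [integral_const_mul]
    congr 1
    exact integral_ofReal
  -- first error
  have hE1 : ‖∫ x : ℝ, (Complex.exp ((t * x : ℝ) * Complex.I) - S x) ∂μ‖ ≤
      t ^ (2 * n) * ((gm (2 * n) : ℝ) + η) / ((2 * n).factorial : ℝ) := by
    have hb : ∀ x : ℝ, ‖Complex.exp ((t * x : ℝ) * Complex.I) - S x‖ ≤
        t ^ (2 * n) / ((2 * n).factorial : ℝ) * x ^ (2 * n) := by
      intro x
      have h1 : ((((t * x : ℝ) : ℂ)) * Complex.I).re ≤ 0 := by simp
      have h2 := rem_aux (2 * n) _ h1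
      refine h2.trans (le_of_eq ?_)
      have h3 : ‖(((t * x : ℝ) : ℂ)) * Complex.I‖ = |t * x| := by
        rw [norm_mul, Complex.norm_I, mul_one, Complex.norm_real, Real.norm_eq_abs]
      rw [h3, pow_mul, sq_abs, ← pow_mul, mul_pow]
      ring
    have h1 : ‖∫ x : ℝ, (Complex.exp ((t * x : ℝ) * Complex.I) - S x) ∂μ‖ ≤
        ∫ x : ℝ, t ^ (2 * n) / ((2 * n).factorial : ℝ) * x ^ (2 * n) ∂μ := by
      refine norm_integral_le_of_norm_le ((hint (2 * n) le_rfl).const_mul _) ?_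
      exact Filter.Eventually.of_forall hb
    refine h1.trans ?_
    rw [integral_const_mul]
    have h2 := hmom (2 * n) le_rfl
    have h3 : ∫ x, x ^ (2 * n) ∂μ ≤ (gm (2 * n) : ℝ) + η := by
      have := (abs_le.mp h2).2
      linarith
    calc t ^ (2 * n) / ((2 * n).factorial : ℝ) * ∫ x, x ^ (2 * n) ∂μ
        ≤ t ^ (2 * n) / ((2 * n).factorial : ℝ) * ((gm (2 * n) : ℝ) + η) :=
          mul_le_mul_of_nonneg_left h3 (by positivity)
      _ = _ := by ring
  -- second error
  have hE2 : ‖(∫ x, S x ∂μ) - ∑ k ∈ range (2 * n), (((t : ℂ) * Complex.I) ^ k / (k.factorial : ℂ))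
      * (gm k : ℂ)‖ ≤ η * (Real.exp t - 1) := by
    rw [hI, ← Finset.sum_sub_distrib]
    obtain ⟨m, hm⟩ : ∃ m, 2 * n = m + 1 := ⟨2 * n - 1, by omega⟩
    rw [hm, Finset.sum_range_succ']
    have hz : (((t : ℂ) * Complex.I) ^ 0 / ((Nat.factorial 0 : ℕ) : ℂ)) * ((∫ x, x ^ 0 ∂μ : ℝ) : ℂ)
        - (((t : ℂ) * Complex.I) ^ 0 / ((Nat.factorial 0 : ℕ) : ℂ)) * (gm 0 : ℂ) = 0 := by
      simp [gm]
    rw [hz, add_zero]
    have h1 : ∑ k ∈ range m, t ^ (k + 1) / ((k + 1).factorial : ℝ) ≤ Real.exp t - 1 := by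
      have := Real.sum_le_exp_of_nonneg ht (m + 1)
      rw [Finset.sum_range_succ'] at this
      simp only [pow_zero, Nat.factorial_zero, Nat.cast_one, div_one] at this
      linarith
    calc ‖∑ k ∈ range m, ((((t : ℂ) * Complex.I) ^ (k + 1) / ((k + 1).factorial : ℂ))
          * ((∫ x, x ^ (k + 1) ∂μ : ℝ) : ℂ)
          - (((t : ℂ) * Complex.I) ^ (k + 1) / ((k + 1).factorial : ℂ)) * (gm (k + 1) : ℂ))‖
        ≤ ∑ k ∈ range m, ‖((((t : ℂ) * Complex.I) ^ (k + 1) / ((k + 1).factorial : ℂ))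
          * ((∫ x, x ^ (k + 1) ∂μ : ℝ) : ℂ)
          - (((t : ℂ) * Complex.I) ^ (k + 1) / ((k + 1).factorial : ℂ)) * (gm (k + 1) : ℂ))‖ :=
            norm_sum_le _ _
      _ ≤ ∑ k ∈ range m, η * (t ^ (k + 1) / ((k + 1).factorial : ℝ)) := by
          refine Finset.sum_le_sum (fun k hk => ?_)
          rw [← mul_sub, norm_mul]
          have h2 : ‖((t : ℂ) * Complex.I) ^ (k + 1) / ((k + 1).factorial : ℂ)‖
              = t ^ (k + 1) / ((k + 1).factorial : ℝ) := by
            rw [norm_div, norm_pow, norm_mul, Complex.norm_I, mul_one, Complex.norm_real,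
              Real.norm_of_nonneg ht, Complex.norm_natCast]
          have h3 : ‖((∫ x, x ^ (k + 1) ∂μ : ℝ) : ℂ) - (gm (k + 1) : ℂ)‖ ≤ η := by
            have h4 := hmom (k + 1) (by have := Finset.mem_range.mp hk; omega)
            have h5 : ((∫ x, x ^ (k + 1) ∂μ : ℝ) : ℂ) - (gm (k + 1) : ℂ)
                = (((∫ x, x ^ (k + 1) ∂μ) - (gm (k + 1) : ℝ) : ℝ) : ℂ) := by push_cast; rfl
            rw [h5, Complex.norm_real]
            exact h4
          rw [h2, mul_comm η]
          exact mul_le_mul_of_nonneg_left h3 (by positivity)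
      _ = η * ∑ k ∈ range m, t ^ (k + 1) / ((k + 1).factorial : ℝ) := by rw [Finset.mul_sum]
      _ ≤ η * (Real.exp t - 1) := mul_le_mul_of_nonneg_left h1 hη
  -- main sum
  have hmain : ∑ k ∈ range (2 * n), (((t : ℂ) * Complex.I) ^ k / (k.factorial : ℂ)) * (gm k : ℂ)
      = tay n (-((t : ℂ) ^ 2 / 2)) := by
    rw [sum_even n _ (fun k hk => by rw [odd_gm k hk]; simp)]
    simp only [tay]
    refine Finset.sum_congr rfl (fun j _ => ?_)
    have h1 := even_gm j
    have h2 : ((t : ℂ) * Complex.I) ^ (2 * j) = (-((t : ℂ) ^ 2)) ^ j := by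
      rw [pow_mul, mul_pow, Complex.I_sq]; ring_nf
    calc ((t : ℂ) * Complex.I) ^ (2 * j) / ((2 * j).factorial : ℂ) * (gm (2 * j) : ℂ)
        = ((t : ℂ) * Complex.I) ^ (2 * j) * ((gm (2 * j) : ℂ) / ((2 * j).factorial : ℂ)) := by ring
      _ = (-((t : ℂ) ^ 2)) ^ j * (1 / (2 ^ j * (j.factorial : ℂ))) := by rw [h1, h2]
      _ = (-((t : ℂ) ^ 2 / 2)) ^ j / (j.factorial : ℂ) := by
          rw [show -((t : ℂ) ^ 2 / 2) = (-((t : ℂ) ^ 2)) / 2 by ring, div_pow]
          field_simp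
  have hE3 : ‖Complex.exp (-((t : ℂ) ^ 2 / 2)) - tay n (-((t : ℂ) ^ 2 / 2))‖ ≤
      (t ^ 2 / 2) ^ n / (n.factorial : ℝ) := by
    have h0 : (-((t : ℂ) ^ 2 / 2)) = ((-(t ^ 2 / 2) : ℝ) : ℂ) := by push_cast; ring
    have h1 : (-((t : ℂ) ^ 2 / 2)).re ≤ 0 := by
      rw [h0, Complex.ofReal_re]
      have : 0 ≤ t ^ 2 / 2 := by positivity
      linarith
    have h2 := rem_aux n _ h1
    have h3 : ‖-((t : ℂ) ^ 2 / 2)‖ = t ^ 2 / 2 := by
      rw [h0, Complex.norm_real, norm_neg, Real.norm_of_nonneg (by positivity)]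
    rwa [h3] at h2
  have hfin : charFun μ t - Complex.exp (-((t : ℂ) ^ 2 / 2)) =
      ((∫ x, S x ∂μ) - ∑ k ∈ range (2 * n), (((t : ℂ) * Complex.I) ^ k / (k.factorial : ℂ)) * (gm k : ℂ))
      + (∫ x : ℝ, (Complex.exp ((t * x : ℝ) * Complex.I) - S x) ∂μ)
      - (Complex.exp (-((t : ℂ) ^ 2 / 2)) - tay n (-((t : ℂ) ^ 2 / 2))) := by
    rw [hsub, hmain]; ring
  rw [hfin]
  refine (norm_sub_le _ _).trans ?_
  refine add_le_add ((norm_add_le _ _).trans (add_le_add hE2 hE1)) hE3

end Q177.MM
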